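import Mathlib

namespace Pool.Agent.Results.MP_83972e_lc.NoLocallyTrivialIso

universe u v

/-- Two subsets of `A` are identified when their symmetric difference is finite. -/
def finSetoid (A : Type u) : Setoid (Set A) where
  r X Y := (symmDiff X Y).Finite
  iseqv :=
    { refl := fun X => by simp
      symm := fun {X Y} h => by rwa [symmDiff_comm]
      trans := fun {X Y Z} h1 h2 => (h1.union h2).subset (symmDiff_triangle X Y Z) }

/-- The quotient `P(A)/Fin`. -/
def PFin (A : Type u) : Type u := Quotient (finSetoid A)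

/-- The class `[X]` of a subset `X` of `A` in `P(A)/Fin`. -/
def cls {A : Type u} (X : Set A) : PFin A := Quotient.mk (finSetoid A) X

theorem cls_eq {A : Type u} {X Y : Set A} : cls X = cls Y ↔ (symmDiff X Y).Finite :=
  ⟨fun h => Quotient.exact h, fun h => Quotient.sound h⟩

theorem exists_cls {A : Type u} (a : PFin A) : ∃ X : Set A, cls X = a := Quotient.exists_rep a

/-- `P(A)/Fin` is a Boolean algebra: `[X] ≤ [Y]` iff `X \ Y` is finite, and the operations are
induced by union, intersection and complement. -/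
instance instBooleanAlgebraPFin (A : Type u) : BooleanAlgebra (PFin A) where
  le := Quotient.lift₂ (fun X Y : Set A => (X \ Y).Finite) (by
    intro X Y X' Y' h1 h2
    have h1 : (symmDiff X X').Finite := h1
    have h2 : (symmDiff Y Y').Finite := h2
    apply propext
    constructor
    · intro h
      refine ((h1.union h2).union h).subset ?_
      intro x hx
      simp only [Set.mem_union, Set.mem_symmDiff, Set.mem_sdiff] at hx ⊢
      tauto
    · intro h
      refine ((h1.union h2).union h).subset ?_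
      intro x hx
      simp only [Set.mem_union, Set.mem_symmDiff, Set.mem_sdiff] at hx ⊢
      tauto)
  le_refl := by
    rintro ⟨X⟩
    change (X \ X).Finite
    simp
  le_trans := by
    rintro ⟨X⟩ ⟨Y⟩ ⟨Z⟩ h1 h2
    change (X \ Y).Finite at h1
    change (Y \ Z).Finite at h2
    change (X \ Z).Finite
    refine (h1.union h2).subset ?_
    intro x hx
    simp only [Set.mem_union, Set.mem_sdiff] at hx ⊢
    tauto
  le_antisymm := by
    rintro ⟨X⟩ ⟨Y⟩ h1 h2
    change (X \ Y).Finite at h1
    change (Y \ X).Finite at h2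
    exact Quotient.sound (h1.union h2)
  sup := Quotient.map₂ (fun X Y : Set A => X ∪ Y) (by
    intro X X' h1 Y Y' h2
    have h1 : (symmDiff X X').Finite := h1
    have h2 : (symmDiff Y Y').Finite := h2
    change (symmDiff (X ∪ Y) (X' ∪ Y')).Finite
    refine (h1.union h2).subset ?_
    intro x hx
    simp only [Set.mem_union, Set.mem_symmDiff] at hx ⊢
    tauto)
  inf := Quotient.map₂ (fun X Y : Set A => X ∩ Y) (by
    intro X X' h1 Y Y' h2
    have h1 : (symmDiff X X').Finite := h1
    have h2 : (symmDiff Y Y').Finite := h2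
    change (symmDiff (X ∩ Y) (X' ∩ Y')).Finite
    refine (h1.union h2).subset ?_
    intro x hx
    simp only [Set.mem_union, Set.mem_inter_iff, Set.mem_symmDiff] at hx ⊢
    tauto)
  compl := Quotient.map (fun X : Set A => Xᶜ) (by
    intro X X' h1
    have h1 : (symmDiff X X').Finite := h1
    change (symmDiff Xᶜ X'ᶜ).Finite
    refine h1.subset ?_
    intro x hx
    simp only [Set.mem_compl_iff, Set.mem_symmDiff] at hx ⊢
    tauto)
  top := cls Set.univ
  bot := cls ∅
  le_sup_left := by
    rintro ⟨X⟩ ⟨Y⟩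
    change (X \ (X ∪ Y)).Finite
    exact Set.finite_empty.subset (fun x hx => hx.2 (Or.inl hx.1))
  le_sup_right := by
    rintro ⟨X⟩ ⟨Y⟩
    change (Y \ (X ∪ Y)).Finite
    exact Set.finite_empty.subset (fun x hx => hx.2 (Or.inr hx.1))
  sup_le := by
    rintro ⟨X⟩ ⟨Y⟩ ⟨Z⟩ h1 h2
    change (X \ Z).Finite at h1
    change (Y \ Z).Finite at h2
    change ((X ∪ Y) \ Z).Finite
    refine (h1.union h2).subset ?_
    intro x hx
    simp only [Set.mem_union, Set.mem_sdiff] at hx ⊢
    tauto
  inf_le_left := by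
    rintro ⟨X⟩ ⟨Y⟩
    change ((X ∩ Y) \ X).Finite
    refine Set.finite_empty.subset ?_
    intro x hx
    exact hx.2 hx.1.1
  inf_le_right := by
    rintro ⟨X⟩ ⟨Y⟩
    change ((X ∩ Y) \ Y).Finite
    refine Set.finite_empty.subset ?_
    intro x hx
    exact hx.2 hx.1.2
  le_inf := by
    rintro ⟨X⟩ ⟨Y⟩ ⟨Z⟩ h1 h2
    change (X \ Y).Finite at h1
    change (X \ Z).Finite at h2
    change (X \ (Y ∩ Z)).Finite
    refine (h1.union h2).subset ?_
    intro x hx
    simp only [Set.mem_union, Set.mem_sdiff, Set.mem_inter_iff] at hx ⊢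
    tauto
  le_sup_inf := by
    rintro ⟨X⟩ ⟨Y⟩ ⟨Z⟩
    change (((X ∪ Y) ∩ (X ∪ Z)) \ (X ∪ (Y ∩ Z))).Finite
    refine Set.finite_empty.subset ?_
    intro x hx
    simp only [Set.mem_union, Set.mem_sdiff, Set.mem_inter_iff] at hx
    exfalso
    tauto
  inf_compl_le_bot := by
    rintro ⟨X⟩
    change ((X ∩ Xᶜ) \ ∅).Finite
    simp
  top_le_sup_compl := by
    rintro ⟨X⟩
    change (Set.univ \ (X ∪ Xᶜ)).Finite
    simp
  le_top := by
    rintro ⟨X⟩
    change (X \ Set.univ).Finite
    simp
  bot_le := by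
    rintro ⟨X⟩
    change (∅ \ X : Set A).Finite
    simp

theorem cls_le {A : Type u} {X Y : Set A} : cls X ≤ cls Y ↔ (X \ Y).Finite := Iff.rfl

theorem cls_inf {A : Type u} (X Y : Set A) : cls X ⊓ cls Y = cls (X ∩ Y) := rfl

theorem cls_sup {A : Type u} (X Y : Set A) : cls X ⊔ cls Y = cls (X ∪ Y) := rfl

theorem cls_compl {A : Type u} (X : Set A) : (cls X)ᶜ = cls Xᶜ := rfl

theorem cls_eq_bot {A : Type u} {X : Set A} : cls X = ⊥ ↔ X.Finite := by
  have : (⊥ : PFin A) = cls ∅ := rfl
  rw [this, cls_eq]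
  have h : symmDiff X ∅ = X := by
    ext x
    simp [Set.mem_symmDiff]
  rw [h]

/-- An isomorphism `φ : P(A)/Fin → P(B)/Fin` is trivial on `C ⊆ A` if, for a set `D` with
`φ [C] = [D]`, there are cofinite subsets `C'` of `C` and `D'` of `D` and a bijection
`e : D' → C'` with `φ [X] = [e⁻¹[X]]` for every `X ⊆ C'`.  (The bijection is given by a function
`e : B → A` of which only the values on `D'` matter; `e⁻¹[X]` is `{d ∈ D' | e d ∈ X}`.) -/
def TrivialOn {A : Type u} {B : Type v} (φ : PFin A ≃o PFin B) (C : Set A) : Prop :=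
  ∃ D : Set B, φ (cls C) = cls D ∧
    ∃ C' ⊆ C, (C \ C').Finite ∧ ∃ D' ⊆ D, (D \ D').Finite ∧
      ∃ e : B → A, Set.BijOn e D' C' ∧
        ∀ X ⊆ C', φ (cls X) = cls {d ∈ D' | e d ∈ X}


/-- The first uncountable ordinal `ω₁`, as the set of all smaller (i.e. countable) ordinals. -/
abbrev Omega1 : Type 1 := Set.Iio (Ordinal.omega.{0} 1)

section colouring

/-- Colouring for the edges going down. -/
def downCol (c : ℕ → ℕ) (k : ℕ) : Bool :=
  if _h : c k < k then !(downCol c (c k)) else true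
termination_by k

/-- Colouring for the edges going up, in the graph restricted to `{0, ..., N}`. -/
def upCol (c : ℕ → ℕ) (N : ℕ) (k : ℕ) : Bool :=
  if _h : k < c k ∧ c k ≤ N then !(upCol c N (c k)) else true
termination_by N + 1 - k
decreasing_by omega

theorem exists_down (c : ℕ → ℕ) : ∃ A : Set ℕ, ∀ k, c k < k → (k ∈ A ↔ c k ∉ A) := by
  refine ⟨{k | downCol c k = true}, fun k hk => ?_⟩
  have h : downCol c k = !(downCol c (c k)) := by
    rw [downCol, dif_pos hk]
  simp only [Set.mem_ofPred_eq, h]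
  cases downCol c (c k) <;> simp

theorem exists_up (c : ℕ → ℕ) : ∃ A : Set ℕ, ∀ k, k < c k → (k ∈ A ↔ c k ∉ A) := by
  refine ⟨{k | ∀ᶠ N in (Filter.hyperfilter ℕ : Filter ℕ), upCol c N k = true}, fun k hk => ?_⟩
  have hev : ∀ᶠ N in (Filter.hyperfilter ℕ : Filter ℕ), c k ≤ N := by
    have h1 : ∀ᶠ N in (Filter.atTop : Filter ℕ), c k ≤ N := Filter.eventually_ge_atTop _
    rw [← Nat.cofinite_eq_atTop] at h1
    exact Filter.hyperfilter_le_cofinite h1
  simp only [Set.mem_ofPred_eq]
  rw [← Ultrafilter.eventually_not]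
  apply Filter.eventually_congr
  filter_upwards [hev] with N hN
  have h : upCol c N k = !(upCol c N (c k)) := by
    rw [upCol, dif_pos ⟨hk, hN⟩]
  rw [h]
  cases upCol c N (c k) <;> simp

end colouring

section main

variable {A : Type u}

/-- Key fact. -/
theorem sigma_countable (φ : PFin A ≃o PFin ℕ) (C : A → ℕ) (c : ℕ → ℕ)
    (hc : ∀ m, φ (cls (C ⁻¹' {m})) = cls (c ⁻¹' {m})) (U : Set A) (Z : Set ℕ)
    (hUZ : φ (cls U) = cls Z) (hZ : ∀ m, (Z ∩ c ⁻¹' {m}).Finite) : U.Countable := by
  have h1 : ∀ m, (U ∩ C ⁻¹' {m}).Finite := by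
    intro m
    have h2 : φ (cls (U ∩ C ⁻¹' {m})) = ⊥ := by
      rw [← cls_inf, map_inf, hUZ, hc, cls_inf, cls_eq_bot]
      exact hZ m
    rw [map_eq_bot_iff, cls_eq_bot] at h2
    exact h2
  have h3 : U = ⋃ m, (U ∩ C ⁻¹' {m}) := by
    ext x
    simp
  rw [h3]
  exact Set.countable_iUnion (fun m => (h1 m).countable)

/-- Main lemma: an isomorphism cannot be trivial on each member of an uncountable pairwise disjoint
family of infinite sets. -/
theorem main_lemma (φ : PFin A ≃o PFin ℕ) {ι : Type v} (B : ι → Set A)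
    (hdisj : Pairwise (fun i j => Disjoint (B i) (B j))) (hinf : ∀ i, (B i).Infinite)
    (htriv : ∀ i, TrivialOn φ (B i)) : Countable ι := by
  classical
  -- unpack triviality
  have htriv' : ∀ i, ∃ (B' : Set A) (K : Set ℕ) (e : ℕ → A), B' ⊆ B i ∧ (B i \ B').Finite ∧
      Set.BijOn e K B' ∧ ∀ X ⊆ B', φ (cls X) = cls {d ∈ K | e d ∈ X} := by
    intro i
    obtain ⟨D, hD, C', hC', hC'f, D', hD', hD'f, e, he, hX⟩ := htriv i
    exact ⟨C', D', e, hC', hC'f, he, hX⟩
  choose B' K e hB'B hB'f he hφ using htriv'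
  have hB'inf : ∀ i, (B' i).Infinite := by
    intro i hfin
    apply hinf i
    refine (hfin.union (hB'f i)).subset ?_
    intro x hx
    by_cases hx' : x ∈ B' i
    · exact Or.inl hx'
    · exact Or.inr ⟨hx, hx'⟩
  have huniq : ∀ i j x, x ∈ B' i → x ∈ B' j → i = j := by
    intro i j x hi hj
    by_contra hij
    exact (Set.disjoint_left.mp (hdisj hij)) (hB'B i hi) (hB'B j hj)
  -- a countable set meets only countably many of the `B' i`
  have hcount : ∀ U : Set A, U.Countable → {i | (B' i ∩ U).Nonempty}.Countable := by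
    intro U hU
    have h1 : ∀ i : {i | (B' i ∩ U).Nonempty}, ∃ x, x ∈ B' i.1 ∧ x ∈ U := fun i => i.2
    choose g hg using h1
    have : Countable U := hU.to_subtype
    have hinj : Function.Injective (fun i : {i | (B' i ∩ U).Nonempty} => (⟨g i, (hg i).2⟩ : U)) := by
      intro i j hij
      have hij' : g i = g j := congrArg Subtype.val hij
      apply Subtype.ext
      exact huniq i.1 j.1 (g i) (hg i).1 (hij' ▸ (hg j).1)
    exact hinj.countable
  -- the labelling `C : A → ℕ`
  have hC : ∃ C : A → ℕ, ∀ i, ∀ k ∈ K i, C (e i k) = k := by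
    refine ⟨fun x => if h : ∃ p : ι × ℕ, p.2 ∈ K p.1 ∧ e p.1 p.2 = x then h.choose.2 else 0, ?_⟩
    intro i k hk
    have h : ∃ p : ι × ℕ, p.2 ∈ K p.1 ∧ e p.1 p.2 = e i k := ⟨(i, k), hk, rfl⟩
    simp only [dif_pos h]
    have h1 := h.choose_spec
    have h2 : h.choose.1 = i := by
      have h3 : e h.choose.1 h.choose.2 ∈ B' h.choose.1 := (he _).mapsTo h1.1
      have h4 : e h.choose.1 h.choose.2 ∈ B' i := by
        rw [h1.2]
        exact (he _).mapsTo hk
      exact huniq _ _ _ h3 h4
    generalize h.choose = p at h1 h2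
    obtain ⟨p1, p2⟩ := p
    simp only at h1 h2 ⊢
    subst h2
    exact (he p1).injOn h1.1 hk h1.2
  obtain ⟨C, hC⟩ := hC
  -- the map `c : ℕ → ℕ`
  have hc : ∃ c : ℕ → ℕ, ∀ m, φ (cls (C ⁻¹' {m})) = cls (c ⁻¹' {m}) := by
    have hV : ∀ m, ∃ V : Set ℕ, φ (cls (C ⁻¹' {m})) = cls V := fun m =>
      (exists_cls (φ (cls (C ⁻¹' {m})))).imp fun _ h => h.symm
    choose V hV using hV
    have hVV : ∀ m m', m ≠ m' → (V m ∩ V m').Finite := by
      intro m m' hmm
      rw [← cls_eq_bot, ← cls_inf, ← hV, ← hV, ← map_inf, cls_inf, map_eq_bot_iff, cls_eq_bot]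
      refine Set.finite_empty.subset ?_
      rintro x ⟨hx, hx'⟩
      exact hmm (hx.symm.trans hx')
    refine ⟨fun k => if h : ∃ m, k ∈ V m then Nat.find h else k, fun m => ?_⟩
    rw [hV, cls_eq]
    refine ((Set.finite_singleton m).union ((Set.finite_lt_nat m).biUnion
      (fun m' hm' => hVV m' m (Nat.ne_of_lt hm')))).subset ?_
    intro k hk
    rcases hk with ⟨h1, h2⟩ | ⟨h1, h2⟩
    · -- `k ∈ V m` but `c k ≠ m`
      right
      have h : ∃ m, k ∈ V m := ⟨m, h1⟩
      simp only [Set.mem_preimage, Set.mem_singleton_iff, dif_pos h] at h2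
      have h3 : Nat.find h ≤ m := Nat.find_min' h h1
      simp only [Set.mem_iUnion]
      exact ⟨Nat.find h, lt_of_le_of_ne h3 h2, Nat.find_spec h, h1⟩
    · left
      by_cases h : ∃ m, k ∈ V m
      · simp only [Set.mem_preimage, Set.mem_singleton_iff, dif_pos h] at h1
        exact absurd (h1 ▸ Nat.find_spec h) h2
      · simp only [Set.mem_preimage, Set.mem_singleton_iff, dif_neg h] at h1
        exact h1
  obtain ⟨c, hc⟩ := hc
  have hσ := sigma_countable φ C c hc
  have hK : ∀ i, φ (cls (B' i)) = cls (K i) := by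
    intro i
    rw [hφ i _ le_rfl]
    congr 1
    ext d
    simp only [Set.mem_ofPred_eq]
    exact ⟨fun h => h.1, fun h => ⟨h, (he i).mapsTo h⟩⟩
  -- for each `A`, `K i ∩ A =* K i ∩ c⁻¹ A` for all but countably many `i`
  have hS : ∀ S : Set ℕ, {i | ¬ (K i ∩ {k | ¬ (k ∈ S ↔ c k ∈ S)}).Finite}.Countable := by
    intro S
    obtain ⟨Y, hY⟩ := exists_cls (φ (cls (C ⁻¹' S)))
    have hY := hY.symm
    obtain ⟨U', hU'⟩ := exists_cls (φ.symm (cls {k | ¬ (k ∈ Y ↔ c k ∈ S)}))
    have hU : φ (cls U') = cls {k | ¬ (k ∈ Y ↔ c k ∈ S)} := by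
      rw [hU', OrderIso.apply_symm_apply]
    have hUc : U'.Countable := by
      refine hσ U' _ hU ?_
      intro m
      by_cases hm : m ∈ S
      · have h1 : (c ⁻¹' {m} \ Y).Finite := by
          rw [← cls_le, ← hc, ← hY, φ.le_iff_le, cls_le]
          refine Set.finite_empty.subset ?_
          rintro x ⟨hx, hx'⟩
          apply hx'
          have : C x = m := hx
          simp only [Set.mem_preimage, this, hm]
        refine h1.subset ?_
        rintro k ⟨hk, hk'⟩
        have hk2 : c k = m := hk'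
        refine ⟨hk', fun hkY => ?_⟩
        apply hk
        simp only [hk2, hm, hkY]
      · have h1 : (c ⁻¹' {m} ∩ Y).Finite := by
          rw [← cls_eq_bot, ← cls_inf, ← hc, ← hY, ← map_inf, cls_inf, map_eq_bot_iff, cls_eq_bot]
          refine Set.finite_empty.subset ?_
          rintro x ⟨hx, hx'⟩
          have h3 : C x = m := hx
          have h4 : C x ∈ S := hx'
          exact hm (h3 ▸ h4)
        refine h1.subset ?_
        rintro k ⟨hk, hk'⟩
        have hk2 : c k = m := hk'
        refine ⟨hk', ?_⟩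
        by_contra hkY
        apply hk
        simp only [hk2, hm, hkY]
    refine (hcount U' hUc).mono ?_
    intro i hi
    by_contra hne
    apply hi
    have hemp : B' i ∩ U' = ∅ := Set.not_nonempty_iff_eq_empty.mp hne
    have h1 : (K i ∩ {k | ¬ (k ∈ Y ↔ c k ∈ S)}).Finite := by
      rw [← cls_eq_bot, ← cls_inf, ← hK, ← hU, ← map_inf, cls_inf, map_eq_bot_iff, cls_eq_bot, hemp]
      exact Set.finite_empty
    have h2 : (K i ∩ {k | ¬ (k ∈ S ↔ k ∈ Y)}).Finite := by
      have h3 : φ (cls (C ⁻¹' S ∩ B' i)) = cls (Y ∩ K i) := by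
        rw [← cls_inf, map_inf, hY, hK, cls_inf]
      have h4 : φ (cls (C ⁻¹' S ∩ B' i)) = cls {d ∈ K i | e i d ∈ C ⁻¹' S ∩ B' i} :=
        hφ i _ Set.inter_subset_right
      rw [h3, cls_eq] at h4
      refine h4.subset ?_
      rintro k ⟨hk, hk'⟩
      simp only [Set.mem_symmDiff, Set.mem_inter_iff, Set.mem_ofPred_eq, Set.mem_preimage]
      have h5 := hC i k hk
      have h6 := (he i).mapsTo hk
      simp only [Set.mem_ofPred_eq] at hk'
      rw [h5]
      tauto
    refine (h1.union h2).subset ?_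
    rintro k ⟨hk, hk'⟩
    simp only [Set.mem_ofPred_eq, Set.mem_union, Set.mem_inter_iff] at hk' ⊢
    tauto
  -- the fixed points
  obtain ⟨S₁, hS₁⟩ := exists_down c
  obtain ⟨S₂, hS₂⟩ := exists_up c
  obtain ⟨U₀, hU₀'⟩ := exists_cls (φ.symm (cls {k | c k = k}))
  have hU₀ : φ (cls U₀) = cls {k | c k = k} := by
    rw [hU₀', OrderIso.apply_symm_apply]
  have hU₀c : U₀.Countable := by
    refine hσ U₀ _ hU₀ ?_
    intro m
    refine (Set.finite_singleton m).subset ?_
    rintro k ⟨hk, hk'⟩
    have h1 : c k = k := hk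
    have h2 : c k = m := hk'
    exact h1.symm.trans h2
  have hall : (Set.univ : Set ι) ⊆ {i | ¬ (K i ∩ {k | ¬ (k ∈ S₁ ↔ c k ∈ S₁)}).Finite} ∪
      {i | ¬ (K i ∩ {k | ¬ (k ∈ S₂ ↔ c k ∈ S₂)}).Finite} ∪ {i | (B' i ∩ U₀).Nonempty} := by
    intro i _
    by_cases h1 : (K i ∩ {k | ¬ (k ∈ S₁ ↔ c k ∈ S₁)}).Finite
    · by_cases h2 : (K i ∩ {k | ¬ (k ∈ S₂ ↔ c k ∈ S₂)}).Finite
      · right
        have h3 : (K i \ {k | c k = k}).Finite := by
          refine (h1.union h2).subset ?_
          rintro k ⟨hk, hk'⟩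
          have hne : c k ≠ k := hk'
          rcases lt_or_gt_of_ne hne with hlt | hgt
          · left
            refine ⟨hk, ?_⟩
            have := hS₁ k hlt
            simp only [Set.mem_ofPred_eq]
            tauto
          · right
            refine ⟨hk, ?_⟩
            have := hS₂ k hgt
            simp only [Set.mem_ofPred_eq]
            tauto
        rw [← cls_le, ← hK, ← hU₀, φ.le_iff_le, cls_le] at h3
        by_contra hne
        apply hB'inf i
        refine h3.subset ?_
        intro x hx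
        refine ⟨hx, fun hx' => hne ⟨x, hx, hx'⟩⟩
      · left; right; exact h2
    · left; left; exact h1
  have hcu : (Set.univ : Set ι).Countable :=
    (((hS S₁).union (hS S₂)).union (hcount U₀ hU₀c)).mono hall
  exact Set.countable_univ_iff.mp hcu

/-- A set on which `φ` is trivial is countable. -/
theorem countable_of_trivialOn (φ : PFin A ≃o PFin ℕ) (C : Set A) (h : TrivialOn φ C) :
    C.Countable := by
  obtain ⟨D, hD, C', hC', hC'f, D', hD', hD'f, e, he, hX⟩ := h
  have h1 : C'.Countable := by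
    rw [← he.image_eq]
    exact (Set.to_countable D').image e
  refine (h1.union hC'f.countable).mono ?_
  intro x hx
  by_cases hx' : x ∈ C'
  · exact Or.inl hx'
  · exact Or.inr ⟨hx, hx'⟩

/-- There is a countable set outside of which `φ` is nowhere trivial. -/
theorem exists_countable_core (φ : PFin A ≃o PFin ℕ) :
    ∃ N : Set A, N.Countable ∧ ∀ C : Set A, C.Infinite → Disjoint C N → ¬ TrivialOn φ C := by
  -- the families of pairwise disjoint infinite sets on which `φ` is trivial
  let 𝓕 : Set (Set (Set A)) :=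
    {F | F.PairwiseDisjoint id ∧ ∀ C ∈ F, C.Infinite ∧ TrivialOn φ C}
  obtain ⟨F, hF⟩ : ∃ F, Maximal (fun F => F ∈ 𝓕) F := by
    apply zorn_subset
    intro c hc hchain
    refine ⟨⋃₀ c, ⟨?_, ?_⟩, fun s hs => Set.subset_sUnion_of_mem hs⟩
    · exact (Set.pairwiseDisjoint_sUnion hchain.directedOn).mpr (fun s hs => (hc hs).1)
    · rintro C ⟨s, hs, hCs⟩
      exact (hc hs).2 C hCs
  have hFc : F.Countable := by
    have h1 : Countable F := by
      refine main_lemma φ (fun C : F => (C : Set A)) ?_ (fun C => (hF.prop.2 C C.2).1)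
        (fun C => (hF.prop.2 C C.2).2)
      intro C C' hne
      exact hF.prop.1 C.2 C'.2 (fun h => hne (Subtype.ext h))
    exact Set.countable_coe_iff.mp h1
  refine ⟨⋃₀ F, hFc.sUnion (fun C hC => countable_of_trivialOn φ C (hF.prop.2 C hC).2), ?_⟩
  intro C hC hdisj htriv
  have hmem : insert C F ∈ 𝓕 := by
    refine ⟨?_, ?_⟩
    · refine hF.prop.1.insert ?_
      intro C' hC' _
      exact hdisj.mono_right (Set.subset_sUnion_of_mem hC')
    · rintro C' (rfl | hC')
      · exact ⟨hC, htriv⟩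
      · exact hF.prop.2 C' hC'
  have hCF : C ∈ F := hF.le_of_ge hmem (Set.subset_insert C F) (Set.mem_insert C F)
  have h2 : Disjoint C C := hdisj.mono_right (Set.subset_sUnion_of_mem hCF)
  have h3 : C = ∅ := by simpa using h2
  rw [h3] at hC
  exact hC Set.finite_empty

end main

/-- No isomorphism `φ : P(ω₁)/Fin → P(ω)/Fin` is trivial on every countable set. Moreover, every
such isomorphism is nowhere trivial outside a suitable countable set. -/
theorem result (φ : PFin Omega1 ≃o PFin ℕ) :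
    (∃ C : Set Omega1, C.Countable ∧ ¬ TrivialOn φ C) ∧
    ∃ N : Set Omega1, N.Countable ∧
      ∀ C : Set Omega1, C.Infinite → Disjoint C N → ¬ TrivialOn φ C := by
  obtain ⟨N, hN, h⟩ := exists_countable_core φ
  refine ⟨?_, N, hN, h⟩
  have hunc : ¬ (Set.univ : Set Omega1).Countable := by
    rw [Set.countable_univ_iff, ← Cardinal.mk_le_aleph0_iff, not_le, Cardinal.mk_Iio_ordinal,
      Ordinal.card_omega]
    simp
  have hinf : (Nᶜ : Set Omega1).Infinite := by
    intro hfin
    apply hunc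
    refine (hN.union hfin.countable).mono ?_
    intro x _
    exact Classical.em (x ∈ N)
  obtain ⟨C, hC, hCc⟩ : ∃ C ⊆ (Nᶜ : Set Omega1), C.Infinite ∧ C.Countable := by
    have := hinf.to_subtype
    refine ⟨Set.range (fun n : ℕ => ((Infinite.natEmbedding (Nᶜ : Set Omega1)) n : Omega1)),
      ?_, ?_, Set.countable_range _⟩
    · rintro x ⟨n, rfl⟩
      exact Subtype.coe_prop _
    · exact Set.infinite_range_of_injective
        (Subtype.val_injective.comp (Infinite.natEmbedding _).injective)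
  exact ⟨C, hCc.2, h C hCc.1 (Set.disjoint_left.mpr (fun x hx => hC hx))⟩

end Pool.Agent.Results.MP_83972e_lc.NoLocallyTrivialIso
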